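import Pool.Agent.P.MP_232e98_an.Main

set_option autoImplicit false

open Pool.Agent.P.MP_232e98_an

theorem Pool.Agent.Results.MP_232e98_an.MinCertificate.result :
    ∃ s : {z : ℂ // ‖z‖ < 1 / √2} → {z : ℂ // ‖z‖ < 1 / √2} → ℂ,
      (∀ z w, s z w = (1 - 2 * z.1 * (starRingEnd ℂ) w.1)⁻¹) ∧
      IsMinCertificate (fun z w => ((1 - z.1 * (starRingEnd ℂ) w.1) ^ 2)⁻¹) s :=
  Pool.Agent.P.MP_232e98_an.main
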