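import Pool.Agent.P.MP_232e98_an.Threshold

set_option autoImplicit false

open Pool.Agent.P.MP_232e98_an

theorem Pool.Agent.Results.MP_232e98_an.OnlyRadius.result (r : ℝ) (hr0 : 0 < r) (_hr1 : r ≤ 1)
    (hr : r ≠ 1 / √2) :
    ¬ ∃ s : {z : ℂ // ‖z‖ < r} → {z : ℂ // ‖z‖ < r} → ℂ,
      IsMinCertificate (fun z w => ((1 - z.1 * (starRingEnd ℂ) w.1) ^ 2)⁻¹) s :=
  fun ⟨s, hs⟩ => Pool.Agent.P.MP_232e98_an.Th.main r hr0 hr s hs
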